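import Pool.Agent.Helper92.TN.GoalsD

/-!
# Project TN (MP_a41896_nt), packet REMF: zeros over `v = ω`
-/

set_option autoImplicit false

open MvPolynomial

namespace Pool.Agent.Helper12.TN.REMF

theorem t (hN : Pool.Agent.Helper92.TN.NDEG) : Pool.Agent.Helper92.TN.REMF := by
  classical
  intro k F _ _ _ _ v hv hfin ι _ x
  obtain ⟨lc, hlc, h1, h2⟩ := hN k F v hv hfin ι x
  refine ⟨Finset.univ.biUnion fun i => (lc i).roots.toFinset, ?_⟩
  intro ω hω n P hdeg hf hG
  obtain ⟨G, hG, hfG⟩ := hG
  obtain ⟨A, hA1, hA2⟩ := h1 n P hdeg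
  obtain ⟨m, A', hA'⟩ := h2 G hG
  have hinj : Function.Injective (Polynomial.aeval v : Polynomial k →ₐ[k] F) :=
    transcendental_iff_injective.1 hv
  set d := Module.finrank (IntermediateField.adjoin k {v}) F with hd
  -- the norm
  have hnorm : (Algebra.norm (IntermediateField.adjoin k {v}) (aeval x P) : F) =
      (v - algebraMap k F ω) ^ d * (Algebra.norm (IntermediateField.adjoin k {v}) G : F) := by
    have e1 : v - algebraMap k F ω = algebraMap (IntermediateField.adjoin k {v}) F
        (⟨v, IntermediateField.mem_adjoin_simple_self k v⟩ -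
          algebraMap k (IntermediateField.adjoin k {v}) ω) := by
      rw [map_sub]
      rfl
    rw [hfG, map_mul]
    rw [show (v - algebraMap k F ω) = algebraMap (IntermediateField.adjoin k {v}) F
        (⟨v, IntermediateField.mem_adjoin_simple_self k v⟩ -
          algebraMap k (IntermediateField.adjoin k {v}) ω) from e1]
    rw [Algebra.norm_algebraMap]
    push_cast
    rfl
  -- the identity of polynomials
  have hid : A * ∏ i, lc i ^ m i =
      (Polynomial.X - Polynomial.C ω) ^ d * (A' * ∏ i, lc i ^ n i) := by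
    apply hinj
    simp only [map_mul, map_prod, map_pow, map_sub, Polynomial.aeval_X, Polynomial.aeval_C]
    rw [← hA2, ← hA', hnorm]
    ring
  have hprime : Prime (Polynomial.X - Polynomial.C ω) := Polynomial.prime_X_sub_C ω
  have hnd : ¬ (Polynomial.X - Polynomial.C ω) ∣ ∏ i, lc i ^ m i := by
    intro h
    obtain ⟨i, -, hi⟩ := (Prime.dvd_finset_prod_iff hprime _).1 h
    have hi' := hprime.dvd_of_dvd_pow hi
    rw [Polynomial.dvd_iff_isRoot] at hi'
    apply hω
    rw [Finset.mem_biUnion]
    exact ⟨i, Finset.mem_univ _, by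
      rw [Multiset.mem_toFinset, Polynomial.mem_roots (hlc i)]
      exact hi'⟩
  have hdvd : (Polynomial.X - Polynomial.C ω) ^ d ∣ A :=
    hprime.pow_dvd_of_dvd_mul_right d hnd (hid ▸ Dvd.intro _ rfl)
  have hA0 : A ≠ 0 := by
    rintro rfl
    rw [map_zero, mul_eq_zero] at hA2
    rcases hA2 with h | h
    · have h3 : Algebra.norm (IntermediateField.adjoin k {v}) (aeval x P) = 0 := by
        exact_mod_cast h
      exact hf (Algebra.norm_eq_zero_iff.1 h3)
    · rw [Finset.prod_eq_zero_iff] at h
      obtain ⟨i, -, hi⟩ := h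
      have h4 : Polynomial.aeval v (lc i) = 0 := by
        by_contra hne
        exact pow_ne_zero _ hne hi
      exact hlc i (hinj (by rw [h4, map_zero]))
  have h5 := Polynomial.natDegree_le_of_dvd hdvd hA0
  rw [Polynomial.natDegree_pow, Polynomial.natDegree_X_sub_C, mul_one] at h5
  exact h5.trans hA1

end Pool.Agent.Helper12.TN.REMF
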